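import Mathlib
import Pool.Agent.H59.FS.Defs
import Pool.Agent.H59.FS.Mod
import Pool.Agent.H37.NF.Fin
import Pool.Agent.H2.EK.Main
import Pool.Agent.H93.FN.Main

set_option autoImplicit false

/-!
# MP_5c3080_gt: Type `F*_AR` does not imply Type `F*`

There is a group with a proper cocompact action on an absolute retract and without a proper cocompact rigid cellular
action on a contractible CW complex. The group is built from the flag complex of a telescope of the idempotent matrix
`e23` over the group ring of the cyclic group of order 23 (`exists_tower`, `model`); the absolute retract is the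
compactified telescope (`typeFAR`); the obstruction is a class in the reduced projective class group of
`Z[zeta_23, 1/23]` (`not_typeF`).
-/

namespace Pool.Agent.Results.MP_5c3080_gt.CellularVersusAR

open Pool.Agent.H59.FS

/-- There is a group of Type `F*_AR` which is not of Type `F*`. -/
theorem result : ∃ (G : Type) (_ : Group G), TypeFAR G ∧ ¬ TypeF G := by
  obtain ⟨T⟩ := Pool.Agent.H2.EK.exists_tower (Multiplicative (ZMod 23)) 2 Pool.Agent.H37.NF.e23
  exact ⟨(model T Pool.Agent.H37.NF.e23_idem).G, (model T Pool.Agent.H37.NF.e23_idem).grp,
    Pool.H93.FN.typeFAR (model T Pool.Agent.H37.NF.e23_idem) Pool.Agent.H37.NF.e23_idem,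
    Pool.Agent.H37.NF.not_typeF (model T Pool.Agent.H37.NF.e23_idem)⟩

end Pool.Agent.Results.MP_5c3080_gt.CellularVersusAR
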